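import Pool.Agent.V1129.Rot2

set_option autoImplicit false

open Matrix
open Pool.Agent.V1129.Rot

namespace Pool.Agent.Results.MP_6087e2_al.EigenvalueMinusOne

/-- the property proved by induction on the dimension -/
private def P (n : ℕ) : Prop :=
  ∃ ρ : F →* Matrix (Fin n) (Fin n) ℝ, LC ρ ∧ Or ρ (fun _ => 1) ∧ Fa ρ ∧ Ei ρ

private theorem step {n : ℕ} (h : P n) : P (n + 3) := by
  obtain ⟨ρ, h1, h2, h3, h4⟩ := h
  refine ⟨tr finSumFinEquiv (bs ρ rho3), (h1.bs LC_rho3).tr _, ?_, (h3.bs rho3).tr _,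
    (h4.bs rho3).tr _⟩
  have := (h2.bs Or_rho3).tr finSumFinEquiv
  simpa using this

private theorem base6 : P 6 := by
  refine ⟨tr (finSumFinEquiv (m := 3) (n := 3)) (bs rho3' rho3'), (LC_rho3'.bs LC_rho3').tr _, ?_,
    (Fa_rho3'.bs rho3').tr _, (Ei_rho3'.bs rho3').tr _⟩
  have h := (Or_rho3'.bs Or_rho3').tr (finSumFinEquiv (m := 3) (n := 3))
  intro w
  refine ⟨(h w).1, ?_⟩
  rw [(h w).2]
  rcases eps_cases w with e | e
  · simp [e]
  · simp [e]

private theorem base7 : P 7 := by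
  refine ⟨tr (finSumFinEquiv (m := 4) (n := 3)) (bs rho4 rho3), (LC_rho4.bs LC_rho3).tr _, ?_,
    (Fa_rho4.bs rho3).tr _, (Ei_rho4.bs rho3).tr _⟩
  have := (Or_rho4.bs Or_rho3).tr (finSumFinEquiv (m := 4) (n := 3))
  simpa using this

private theorem base8 : P 8 := by
  refine ⟨tr (finSumFinEquiv (m := 4) (n := 4)) (bs rho4 rho4), (LC_rho4.bs LC_rho4).tr _, ?_,
    (Fa_rho4.bs rho4).tr _, (Ei_rho4.bs rho4).tr _⟩
  have := (Or_rho4.bs Or_rho4).tr (finSumFinEquiv (m := 4) (n := 4))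
  simpa using this

private theorem all (n : ℕ) : P (n + 6) ∧ P (n + 7) ∧ P (n + 8) := by
  induction n with
  | zero => exact ⟨base6, base7, base8⟩
  | succ n ih =>
    refine ⟨?_, ?_, ?_⟩
    · have : n + 1 + 6 = n + 7 := by ring
      rw [this]; exact ih.2.1
    · have : n + 1 + 7 = n + 8 := by ring
      rw [this]; exact ih.2.2
    · have : n + 1 + 8 = n + 6 + 3 := by ring
      rw [this]; exact step ih.1

/-- For every `n ≥ 6` there is a locally commutative non-abelian free subgroup of `SO_n(ℝ)`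
containing an element which has `-1` as an eigenvalue. -/
theorem result :
    ∀ n : ℕ, 6 ≤ n →
      ∃ G : Subgroup (Matrix.specialOrthogonalGroup (Fin n) ℝ),
        Nonempty (G ≃* FreeGroup (Fin 2)) ∧
        (∀ g ∈ G, ∀ h ∈ G, ∀ x : Fin n → ℝ, x ⬝ᵥ x = 1 →
          (g : Matrix (Fin n) (Fin n) ℝ) *ᵥ x = x → (h : Matrix (Fin n) (Fin n) ℝ) *ᵥ x = x →
          g * h = h * g) ∧
        ∃ g ∈ G, ∃ x : Fin n → ℝ, x ≠ 0 ∧ (g : Matrix (Fin n) (Fin n) ℝ) *ᵥ x = -x := by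
  intro n hn
  obtain ⟨m, rfl⟩ := Nat.exists_eq_add_of_le' hn
  obtain ⟨ρ, h1, h2, h3, w, x, hx, hw⟩ := (all m).1
  have hmem : ∀ w, ρ w ∈ Matrix.specialOrthogonalGroup (Fin (m + 6)) ℝ := by
    intro w
    rw [Matrix.mem_specialOrthogonalGroup_iff, Matrix.mem_orthogonalGroup_iff']
    exact h2 w
  let σ : F →* Matrix.specialOrthogonalGroup (Fin (m + 6)) ℝ :=
    { toFun := fun w => ⟨ρ w, hmem w⟩
      map_one' := Subtype.ext (map_one ρ)
      map_mul' := fun v w => Subtype.ext (map_mul ρ v w) }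
  have hinj : Function.Injective σ := by
    rw [injective_iff_map_eq_one]
    intro w hw
    exact h3 w (congrArg Subtype.val hw)
  refine ⟨σ.range, ⟨(MonoidHom.ofInjective hinj).symm⟩, ?_, σ w, ⟨w, rfl⟩, x, hx, hw⟩
  rintro _ ⟨v, rfl⟩ _ ⟨w, rfl⟩ x hx e1 e2
  have hx0 : x ≠ 0 := by
    rintro rfl
    rw [dotProduct_zero] at hx
    exact zero_ne_one hx
  rw [← map_mul, ← map_mul, h1 v w x hx0 e1 e2]

end Pool.Agent.Results.MP_6087e2_al.EigenvalueMinusOne
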